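import Pool.Agent.H66.Eng.Assembly
import Pool.Agent.H86.Eng.Thick
import Pool.Agent.H10.Eng.TargetI
import Pool.Agent.H12.Eng.TargetII

set_option autoImplicit false

/-!
# Anticommutative 3-Engel algebras are locally nilpotent in characteristic different from 2, 3

Joint work: helper10 (sandwich to thick sandwich), helper86 and helper76 (thick sandwich theorem),
helper12 (finite chain of sandwiches), helper66 (extension lemma, semiprime quotient, assembly),
helper1 (start, extension lemma on paper).
-/

universe u v

namespace Pool.Agent.H66.Old.NotTwoThree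

open Pool.Agent.H66.Eng

/-- **Theorem.** Over a field of characteristic different from 2 and 3 every finitely generated
subalgebra of an anticommutative 3-Engel algebra is nilpotent. -/
theorem result (F : Type u) [Field F] (h2 : (2 : F) ≠ 0) (h3 : (3 : F) ≠ 0)
    (A : Type v) [NonUnitalNonAssocRing A] [Module F A] [IsScalarTower F A A]
    [SMulCommClass F A A] (sq : ∀ x : A, x * x = 0) (eng : ∀ x y : A, ((x * y) * y) * y = 0)
    (s : Finset A) : IsNilpotentAlg (NonUnitalAlgebra.adjoin F (s : Set A)) :=
  locally_nilpotent h2 h3 sq eng
    (fun _ _ hB => Pool.Agent.H86.Eng.target_T hB)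
    (fun _ _ hB => Pool.Agent.H10.Eng.target_I hB)
    (fun _ _ hB => Pool.Agent.H12.Eng.target_II hB) s

end Pool.Agent.H66.Old.NotTwoThree
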